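import Mathlib

set_option autoImplicit false

/-!
# Flips and dijoins: conditions (a) and (b) are not sufficient as soon as `k ≥ 2` and `τ > 2k`

For `k ≥ 2` and `τ ≥ 2k + 1` take a directed cycle with `τ` vertices and `2k - 2` sources, each
joined to every vertex of the cycle. The cycle vertices have degree `2k`, the sources have
degree `τ`.
-/

namespace Pool.Agent.Results.MP_3933ef_co.FailsAboveTwoK

open Set

/-- The digraph with arc set `A` and the given tails and heads is `m`-arc-connected: every
nonempty proper set `U` of vertices is left by at least `m` arcs. -/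
def ArcConnected {V A : Type} (tail head : A → V) (m : ℕ) : Prop :=
  ∀ U : Set V, U.Nonempty → U ≠ univ → m ≤ {a : A | tail a ∈ U ∧ head a ∉ U}.ncard

/-- The underlying undirected multigraph is `m`-edge-connected: for every nonempty proper set `U`
of vertices at least `m` arcs have exactly one end in `U`. -/
def EdgeConnected {V A : Type} (tail head : A → V) (m : ℕ) : Prop :=
  ∀ U : Set V, U.Nonempty → U ≠ univ →
    m ≤ {a : A | (tail a ∈ U ∧ head a ∉ U) ∨ (head a ∈ U ∧ tail a ∉ U)}.ncard

/-- `J` contains at least `m` arcs of every dicut, i.e. of every arc set `δ⁺(U)` with `U` a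
nonempty proper set of vertices that no arc enters. -/
def IsDijoin {V A : Type} (tail head : A → V) (m : ℕ) (J : Set A) : Prop :=
  ∀ U : Set V, U.Nonempty → U ≠ univ → (∀ a, head a ∈ U → tail a ∈ U) →
    m ≤ {a : A | a ∈ J ∧ tail a ∈ U ∧ head a ∉ U}.ncard

open Classical in
/-- `J` is an `m`-arc-connected flip: reversing the arcs of `J` gives an `m`-arc-connected
digraph. -/
def IsFlip {V A : Type} (tail head : A → V) (m : ℕ) (J : Set A) : Prop :=
  ArcConnected (fun a => if a ∈ J then head a else tail a)
    (fun a => if a ∈ J then tail a else head a) m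

section construction

variable (s n : ℕ)

/-- tails -/
def tl : (Fin s × ZMod n) ⊕ ZMod n → Fin s ⊕ ZMod n
  | .inl p => .inl p.1
  | .inr z => .inr z

/-- heads -/
def hd : (Fin s × ZMod n) ⊕ ZMod n → Fin s ⊕ ZMod n
  | .inl p => .inr p.2
  | .inr z => .inr (z + 1)

/-- On the cycle, a nonempty proper set is entered. -/
lemma exists_enter {n : ℕ} [NeZero n] (X : Set (ZMod n)) (h1 : X.Nonempty) (h2 : X ≠ univ) :
    ∃ z, z ∉ X ∧ z + 1 ∈ X := by
  by_contra h
  push Not at h
  apply h2
  obtain ⟨x, hx⟩ := h1
  have key : ∀ i : ℕ, x - i ∈ X := by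
    intro i
    induction i with
    | zero => simpa using hx
    | succ i ih =>
      by_contra hc
      apply h _ hc
      have : x - ((i + 1 : ℕ) : ZMod n) + 1 = x - (i : ZMod n) := by push_cast; ring
      rw [this]; exact ih
  ext y
  simp only [mem_univ, iff_true]
  have := key (x - y).val
  rwa [ZMod.natCast_zmod_val, sub_sub_cancel] at this

lemma exists_leave {n : ℕ} [NeZero n] (X : Set (ZMod n)) (h1 : X.Nonempty) (h2 : X ≠ univ) :
    ∃ z, z ∈ X ∧ z + 1 ∉ X := by
  have h1' : Xᶜ.Nonempty := nonempty_compl.2 h2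
  have h2' : Xᶜ ≠ univ := by
    intro h
    rw [compl_univ_iff] at h
    exact h1.ne_empty h
  obtain ⟨z, hz, hz'⟩ := exists_enter Xᶜ h1' h2'
  exact ⟨z, by simpa using hz, hz'⟩

lemma card_le_ncard {ι A : Type} [Fintype ι] [Finite A] (f : ι → A) (hf : Function.Injective f)
    (C : Set A) (h : ∀ i, f i ∈ C) : Fintype.card ι ≤ C.ncard := by
  have h1 : (f '' univ).ncard = Fintype.card ι := by
    rw [ncard_image_of_injective _ hf, ncard_univ, Nat.card_eq_fintype_card]
  rw [← h1]
  exact ncard_le_ncard (by rintro _ ⟨i, _, rfl⟩; exact h i) (toFinite _)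

lemma edgeConnected (s n m : ℕ) [NeZero n] (h1 : m ≤ s + 2) (h2 : m ≤ n) :
    EdgeConnected (tl s n) (hd s n) m := by
  classical
  intro U hU hU'
  set X : Set (ZMod n) := {z | (Sum.inr z : Fin s ⊕ ZMod n) ∈ U} with hX
  by_cases hX1 : X = ∅
  · -- some source is in `U`
    obtain ⟨v, hv⟩ := hU
    rcases v with i | z
    · have := card_le_ncard (fun z : ZMod n => (Sum.inl (i, z) : (Fin s × ZMod n) ⊕ ZMod n))
        (by intro a b h; simpa using h)
        {a | (tl s n a ∈ U ∧ hd s n a ∉ U) ∨ (hd s n a ∈ U ∧ tl s n a ∉ U)} (by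
          intro z
          left
          refine ⟨hv, fun h => ?_⟩
          have : z ∈ X := h
          rw [hX1] at this
          exact this)
      rw [ZMod.card] at this
      omega
    · have : z ∈ X := hv
      rw [hX1] at this
      exact absurd this (notMem_empty _)
  · by_cases hX2 : X = univ
    · have : ∃ i : Fin s, (Sum.inl i : Fin s ⊕ ZMod n) ∉ U := by
        by_contra hc
        push Not at hc
        apply hU'
        ext v
        simp only [mem_univ, iff_true]
        rcases v with i | z
        · exact hc i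
        · have : z ∈ X := by rw [hX2]; exact mem_univ _
          exact this
      obtain ⟨i, hi⟩ := this
      have := card_le_ncard (fun z : ZMod n => (Sum.inl (i, z) : (Fin s × ZMod n) ⊕ ZMod n))
        (by intro a b h; simpa using h)
        {a | (tl s n a ∈ U ∧ hd s n a ∉ U) ∨ (hd s n a ∈ U ∧ tl s n a ∉ U)} (by
          intro z
          right
          refine ⟨?_, hi⟩
          have : z ∈ X := by rw [hX2]; exact mem_univ _
          exact this)
      rw [ZMod.card] at this
      omega
    · have hX1' : X.Nonempty := nonempty_iff_ne_empty.2 hX1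
      obtain ⟨z₁, h11, h12⟩ := exists_leave X hX1' hX2
      obtain ⟨z₂, h21, h22⟩ := exists_enter X hX1' hX2
      have := card_le_ncard (fun j : Fin s ⊕ Bool => match j with
          | .inl i => (Sum.inl (i, if (Sum.inl i : Fin s ⊕ ZMod n) ∈ U then z₂ else z₁) :
              (Fin s × ZMod n) ⊕ ZMod n)
          | .inr true => Sum.inr z₁
          | .inr false => Sum.inr z₂)
        (by
          intro a b h
          rcases a with a | a | a <;> rcases b with b | b | b <;>
            simp only [Sum.inl.injEq, Prod.mk.injEq, reduceCtorEq, Sum.inr.injEq] at h ⊢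
          · exact h.1
          · exact absurd (h ▸ h11) h21
          · exact absurd (h ▸ h11) h21)
        {a | (tl s n a ∈ U ∧ hd s n a ∉ U) ∨ (hd s n a ∈ U ∧ tl s n a ∉ U)} (by
          intro j
          rcases j with i | b | b
          · by_cases hi : (Sum.inl i : Fin s ⊕ ZMod n) ∈ U
            · left
              simp only [hi, if_true]
              exact ⟨hi, h21⟩
            · right
              simp only [hi, if_false]
              exact ⟨h11, hi⟩
          · right
            exact ⟨h22, h21⟩
          · left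
            exact ⟨h11, h12⟩)
      rw [Fintype.card_sum, Fintype.card_fin, Fintype.card_bool] at this
      omega

lemma dicuts (s n : ℕ) [NeZero n] : IsDijoin (tl s n) (hd s n) n univ := by
  classical
  intro U hU hU' hin
  set X : Set (ZMod n) := {z | (Sum.inr z : Fin s ⊕ ZMod n) ∈ U} with hX
  have hX1 : X = ∅ := by
    by_contra hX1
    by_cases hX2 : X = univ
    · apply hU'
      ext v
      simp only [mem_univ, iff_true]
      have hz : ∀ z, (Sum.inr z : Fin s ⊕ ZMod n) ∈ U := by
        intro z
        have : z ∈ X := by rw [hX2]; exact mem_univ _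
        exact this
      rcases v with i | z
      · exact hin (Sum.inl (i, 0)) (hz 0)
      · exact hz z
    · obtain ⟨z₂, h21, h22⟩ := exists_enter X (nonempty_iff_ne_empty.2 hX1) hX2
      exact h21 (hin (Sum.inr z₂) h22)
  obtain ⟨v, hv⟩ := hU
  rcases v with i | z
  · have := card_le_ncard (fun z : ZMod n => (Sum.inl (i, z) : (Fin s × ZMod n) ⊕ ZMod n))
      (by intro a b h; simpa using h)
      {a | a ∈ univ ∧ tl s n a ∈ U ∧ hd s n a ∉ U} (by
        intro z
        refine ⟨mem_univ _, hv, fun h => ?_⟩
        have : z ∈ X := h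
        rw [hX1] at this
        exact this)
    rw [ZMod.card] at this
    exact this
  · have : z ∈ X := hv
    rw [hX1] at this
    exact absurd this (notMem_empty _)

open Classical in
lemma noDecomp (s n k : ℕ) [NeZero n] [Fact (1 < n)] (h : s * n + n < s * (n - k) + n * k) :
    ¬ ∃ J : Set ((Fin s × ZMod n) ⊕ ZMod n), IsFlip (tl s n) (hd s n) k J ∧
      IsDijoin (tl s n) (hd s n) (n - k) Jᶜ := by
  rintro ⟨J, hJ, hJ'⟩
  unfold IsFlip at hJ
  generalize htl' : (fun a => if a ∈ J then hd s n a else tl s n a) = tl' at hJ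
  have htl : ∀ a, a ∉ J → tl' a = tl s n a := by
    intro a ha
    rw [← htl']
    simp [ha]
  have hsing : ∀ v : Fin s ⊕ ZMod n, ({v} : Set (Fin s ⊕ ZMod n)) ≠ univ := by
    intro v h
    rcases v with i | z
    · have : (Sum.inr 0 : Fin s ⊕ ZMod n) ∈ ({Sum.inl i} : Set (Fin s ⊕ ZMod n)) := by
        rw [h]; exact mem_univ _
      simp at this
    · have : (Sum.inr (z + 1) : Fin s ⊕ ZMod n) ∈ ({Sum.inr z} : Set (Fin s ⊕ ZMod n)) := by
        rw [h]; exact mem_univ _
      simp at this
  have hz : ∀ z : ZMod n, k ≤ (Finset.univ.filter fun a => tl' a = Sum.inr z).card := by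
    intro z
    refine (hJ {Sum.inr z} (singleton_nonempty _) (hsing _)).trans ?_
    rw [ncard_eq_toFinset_card']
    apply Finset.card_le_card
    intro a ha
    simp only [mem_toFinset, mem_ofPred_eq, mem_singleton_iff] at ha
    simp only [Finset.mem_filter, Finset.mem_univ, true_and]
    exact ha.1
  have hi : ∀ i : Fin s, n - k ≤ (Finset.univ.filter fun a => tl' a = Sum.inl i).card := by
    intro i
    refine (hJ' {Sum.inl i} (singleton_nonempty _) (hsing _) ?_).trans ?_
    · rintro (a | a) ha <;> simp [hd] at ha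
    rw [ncard_eq_toFinset_card']
    apply Finset.card_le_card
    intro a ha
    simp only [mem_toFinset, mem_ofPred_eq, mem_singleton_iff, mem_compl_iff] at ha
    simp only [Finset.mem_filter, Finset.mem_univ, true_and]
    rw [htl a ha.1]
    exact ha.2.1
  have htot : (Finset.univ : Finset ((Fin s × ZMod n) ⊕ ZMod n)).card =
      ∑ v : Fin s ⊕ ZMod n, (Finset.univ.filter fun a => tl' a = v).card :=
    Finset.card_eq_sum_card_fiberwise (fun a _ => Finset.mem_univ _)
  rw [Fintype.sum_sum_type, Finset.card_univ, Fintype.card_sum, Fintype.card_prod, ZMod.card,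
    Fintype.card_fin] at htot
  have h1 : s * (n - k) ≤ ∑ i : Fin s, (Finset.univ.filter fun a => tl' a = Sum.inl i).card := by
    have := Finset.card_nsmul_le_sum (Finset.univ : Finset (Fin s)) _ _ (fun i _ => hi i)
    simpa using this
  have h2 : n * k ≤ ∑ z : ZMod n, (Finset.univ.filter fun a => tl' a = Sum.inr z).card := by
    have := Finset.card_nsmul_le_sum (Finset.univ : Finset (ZMod n)) _ _ (fun z _ => hz z)
    simpa [ZMod.card] using this
  omega

end construction

/-- For all `k ≥ 2` and `τ ≥ 2k + 1` there is a finite digraph (even without parallel or opposite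
arcs and without loops) whose underlying undirected graph is `2k`-edge-connected, all of whose
dicuts have at least `τ` arcs, and whose arc set does not decompose into a `k`-arc-connected flip
`J` and a `(τ - k)`-dijoin. -/
theorem result (k τ : ℕ) (hk : 2 ≤ k) (hτ : 2 * k + 1 ≤ τ) :
    ∃ (V A : Type) (_ : Finite V) (_ : Finite A) (tail head : A → V),
      (∀ a b, (tail a = tail b ∧ head a = head b) ∨ (tail a = head b ∧ head a = tail b) → a = b) ∧
      (∀ a, tail a ≠ head a) ∧
      EdgeConnected tail head (2 * k) ∧
      IsDijoin tail head τ univ ∧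
      ¬ ∃ J : Set A, IsFlip tail head k J ∧ IsDijoin tail head (τ - k) Jᶜ := by
  classical
  have : NeZero τ := ⟨by omega⟩
  have : Fact (1 < τ) := ⟨by omega⟩
  refine ⟨Fin (2 * k - 2) ⊕ ZMod τ, (Fin (2 * k - 2) × ZMod τ) ⊕ ZMod τ, inferInstance,
    inferInstance, tl _ _, hd _ _, ?_, ?_, edgeConnected _ _ _ (by omega) (by omega), dicuts _ _, ?_⟩
  · have h2 : (1 : ZMod τ) + 1 ≠ 0 := by
      intro h
      have h3 : ((2 : ℕ) : ZMod τ) = 0 := by push_cast; rw [← h]; norm_num
      rw [ZMod.natCast_eq_zero_iff] at h3
      have := Nat.le_of_dvd (by norm_num) h3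
      omega
    rintro (⟨i, z⟩ | z) (⟨j, w⟩ | w) h <;> simp only [tl, hd, Sum.inl.injEq, Sum.inr.injEq,
      reduceCtorEq, and_false, false_and, or_false, Prod.mk.injEq] at h ⊢
    · exact h
    · rcases h with h | h
      · exact h.1
      · exfalso
        apply h2
        have := h.2
        rw [h.1] at this
        have h4 : w + (1 + 1) = w := by rw [← add_assoc]; exact this
        simpa using h4
  · rintro (⟨i, z⟩ | z) <;> simp [tl, hd]
  · apply noDecomp
    obtain ⟨c, rfl⟩ : ∃ c, k = c + 2 := ⟨k - 2, by omega⟩
    obtain ⟨d, rfl⟩ : ∃ d, τ = 2 * (c + 2) + 1 + d := ⟨τ - (2 * (c + 2) + 1), by omega⟩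
    have e1 : 2 * (c + 2) - 2 = 2 * c + 2 := by omega
    have e2 : 2 * (c + 2) + 1 + d - (c + 2) = c + 3 + d := by omega
    rw [e1, e2]
    nlinarith

end Pool.Agent.Results.MP_3933ef_co.FailsAboveTwoK
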